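import Pool.Agent.Helper94.LG.Sheet
open MeasureTheory Metric Set Filter Topology
open scoped ENNReal NNReal

/-!
Rows CHN of projects LG and LX (`MP_665203_co`), general form: points of a chain of small sets are
joined by a network.
-/

namespace H11ST
namespace LG

variable {d n : ℕ}

theorem gchn_pos_leaf (p : Fin n → E d) (i : Fin n) :
    (BT.leaf i : BT (Fin n) (E d)).pos p = p i := rfl

theorem gchn_pos_node (p : Fin n → E d) (z : E d) (l r : BT (Fin n) (E d)) :
    (BT.node z l r).pos p = z := rfl

theorem gchn_esum_leaf (p : Fin n → E d) (i : Fin n) :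
    (BT.leaf i : BT (Fin n) (E d)).esum p dist = 0 := rfl

theorem gchn_esum_node (p : Fin n → E d) (z : E d) (l r : BT (Fin n) (E d)) :
    (BT.node z l r).esum p dist =
      dist z (l.pos p) + l.esum p dist + (dist z (r.pos p) + r.esum p dist) := rfl

/-- the star with centre `w` over the labels `S` -/
theorem gchn_star (p : Fin n → E d) (w : E d) (S : Finset (Fin n)) (hS : S.Nonempty) :
    ∃ t : BT (Fin n) (E d), t.ok ∧ t.lv = S ∧
      dist w (t.pos p) + t.esum p dist ≤ ∑ i ∈ S, dist w (p i) := by
  classical
  induction hS using Finset.Nonempty.cons_induction with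
  | singleton i =>
    refine ⟨.leaf i, trivial, rfl, ?_⟩
    rw [gchn_pos_leaf, gchn_esum_leaf, Finset.sum_singleton, add_zero]
  | cons i S hi hS ih =>
    obtain ⟨t, h1, h2, h3⟩ := ih
    refine ⟨.node w (.leaf i) t, ⟨trivial, h1, ?_⟩, ?_, ?_⟩
    · rw [h2]
      exact Finset.disjoint_singleton_left.2 hi
    · simp only [BT.lv]
      rw [h2, Finset.cons_eq_insert, Finset.insert_eq]
    · rw [gchn_pos_node, gchn_esum_node, gchn_pos_leaf, gchn_esum_leaf, dist_self, Finset.sum_cons]
      linarith

/-- replace the leaf `j` by the tree `g` -/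
def gchnGraft (j : Fin n) (g : BT (Fin n) (E d)) : BT (Fin n) (E d) → BT (Fin n) (E d)
  | .leaf i => if i = j then g else .leaf i
  | .node z l r => .node z (gchnGraft j g l) (gchnGraft j g r)

theorem gchn_notMem (p : Fin n → E d) (w : E d) (j : Fin n) (g : BT (Fin n) (E d)) :
    ∀ t : BT (Fin n) (E d), j ∉ t.lv → gchnGraft j g t = t ∧
      t.pos (Function.update p j w) = t.pos p ∧
      t.esum (Function.update p j w) dist = t.esum p dist := by
  intro t
  induction t with
  | leaf i =>
    intro h
    have hij : i ≠ j := by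
      rintro rfl
      exact h (Finset.mem_singleton_self i)
    refine ⟨if_neg hij, ?_, rfl⟩
    exact Function.update_of_ne hij w p
  | node z l r hl hr =>
    intro h
    have h1 : j ∉ l.lv := fun hh => h (Finset.mem_union_left _ hh)
    have h2 : j ∉ r.lv := fun hh => h (Finset.mem_union_right _ hh)
    obtain ⟨a1, a2, a3⟩ := hl h1
    obtain ⟨b1, b2, b3⟩ := hr h2
    refine ⟨?_, rfl, ?_⟩
    · simp only [gchnGraft]
      rw [a1, b1]
    · rw [gchn_esum_node, gchn_esum_node, a2, a3, b2, b3]

theorem gchn_graft (p : Fin n → E d) (w : E d) (j : Fin n) (g : BT (Fin n) (E d)) (hg : g.ok) :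
    ∀ t : BT (Fin n) (E d), t.ok → j ∈ t.lv → Disjoint (t.lv.erase j) g.lv →
      (gchnGraft j g t).ok ∧ (gchnGraft j g t).lv = t.lv.erase j ∪ g.lv ∧
      ∀ y, dist y ((gchnGraft j g t).pos p) + (gchnGraft j g t).esum p dist ≤
        dist y (t.pos (Function.update p j w)) + t.esum (Function.update p j w) dist +
          (dist w (g.pos p) + g.esum p dist) := by
  classical
  intro t
  induction t with
  | leaf i =>
    intro _ h _
    have hij : j = i := Finset.mem_singleton.1 h
    subst hij
    have e1 : gchnGraft j g (.leaf j) = g := if_pos rfl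
    rw [e1]
    refine ⟨hg, ?_, fun y => ?_⟩
    · simp [BT.lv]
    · rw [gchn_pos_leaf, gchn_esum_leaf, Function.update_self]
      linarith [dist_triangle y w (g.pos p)]
  | node z l r hl hr =>
    rintro ⟨ok1, ok2, hdis⟩ h hgd
    have hsub1 : l.lv.erase j ⊆ (BT.node z l r).lv.erase j :=
      Finset.erase_subset_erase _ Finset.subset_union_left
    have hsub2 : r.lv.erase j ⊆ (BT.node z l r).lv.erase j :=
      Finset.erase_subset_erase _ Finset.subset_union_right
    rcases Finset.mem_union.1 h with h1 | h1
    · have h2 : j ∉ r.lv := Finset.disjoint_left.1 hdis h1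
      obtain ⟨a1, a2, a3⟩ := hl ok1 h1 (Finset.disjoint_of_subset_left hsub1 hgd)
      obtain ⟨b1, b2, b3⟩ := gchn_notMem p w j g r h2
      have hr' : r.lv.erase j = r.lv := Finset.erase_eq_of_notMem h2
      rw [hr'] at hsub2
      have e1 : gchnGraft j g (.node z l r) = .node z (gchnGraft j g l) r := by
        simp only [gchnGraft]
        rw [b1]
      rw [e1]
      refine ⟨⟨a1, ok2, ?_⟩, ?_, fun y => ?_⟩
      · rw [a2, Finset.disjoint_union_left]
        exact ⟨Finset.disjoint_of_subset_left (Finset.erase_subset _ _) hdis,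
          (Finset.disjoint_of_subset_left hsub2 hgd).symm⟩
      · simp only [BT.lv]
        rw [a2, Finset.erase_union_distrib, hr']
        exact Finset.union_right_comm _ _ _
      · have h5 := a3 z
        rw [gchn_pos_node, gchn_pos_node, gchn_esum_node, gchn_esum_node, b2, b3]
        linarith
    · have h2 : j ∉ l.lv := Finset.disjoint_right.1 hdis h1
      obtain ⟨a1, a2, a3⟩ := hr ok2 h1 (Finset.disjoint_of_subset_left hsub2 hgd)
      obtain ⟨b1, b2, b3⟩ := gchn_notMem p w j g l h2
      have hl' : l.lv.erase j = l.lv := Finset.erase_eq_of_notMem h2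
      rw [hl'] at hsub1
      have e1 : gchnGraft j g (.node z l r) = .node z l (gchnGraft j g r) := by
        simp only [gchnGraft]
        rw [b1]
      rw [e1]
      refine ⟨⟨ok1, a1, ?_⟩, ?_, fun y => ?_⟩
      · rw [a2, Finset.disjoint_union_right]
        exact ⟨Finset.disjoint_of_subset_right (Finset.erase_subset _ _) hdis,
          Finset.disjoint_of_subset_left hsub1 hgd⟩
      · simp only [BT.lv]
        rw [a2, Finset.erase_union_distrib, hl', Finset.union_assoc]
      · have h5 := a3 z
        rw [gchn_pos_node, gchn_pos_node, gchn_esum_node, gchn_esum_node, b2, b3]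
        linarith

theorem gchn_sum {O : Set (E d)} {c η : ℝ} (hc : ∀ p ∈ O, ∀ q ∈ O, dist p q ≤ c) (hη : c ≤ η)
    (p : Fin n → E d) {y : E d} (hy : y ∈ O) (S : Finset (Fin n)) (hS : S.Nonempty)
    (hp : ∀ i ∈ S, p i ∈ O) : ∑ i ∈ S, dist y (p i) ≤ c + ((S.card : ℝ) - 1) * η := by
  have h1 : ∑ i ∈ S, dist y (p i) ≤ ∑ _i ∈ S, c :=
    Finset.sum_le_sum fun i hi => hc y hy _ (hp i hi)
  rw [Finset.sum_const, nsmul_eq_mul] at h1
  have h2 : (1 : ℝ) ≤ S.card := by exact_mod_cast hS.card_pos
  nlinarith

theorem gchn (d n : ℕ) (η s : ℝ) (U : Set (E d)) (h : Chain η U s) :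
    ∀ (p : Fin n → E d) (S : Finset (Fin n)), S.Nonempty → (∀ i ∈ S, p i ∈ U) → ∀ y ∈ U,
      ∃ t : BT (Fin n) (E d), t.ok ∧ t.lv = S ∧
        dist y (t.pos p) + t.esum p dist ≤ s + ((S.card : ℝ) - 1) * η := by
  classical
  induction h with
  | base O c hc0 hc hη =>
    intro p S hS hp y hy
    obtain ⟨t, h1, h2, h3⟩ := gchn_star p y S hS
    exact ⟨t, h1, h2, h3.trans (gchn_sum hc hη p hy S hS hp)⟩
  | step U s O c hU w hwU hwO hc0 hc hη ih =>
    have hs := hU.nonneg
    have hη0 : 0 ≤ η := hc0.trans hη
    intro p S hS hp y hy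
    set SU := S.filter fun i => p i ∈ U with hSU
    set SO := S.filter fun i => p i ∉ U with hSO
    have hun : SU ∪ SO = S := Finset.filter_union_filter_not_eq _ _
    have hdis : Disjoint SU SO := Finset.disjoint_filter_filter_not _ _ _
    have hcard : ((S.card : ℕ) : ℝ) = SU.card + SO.card := by
      rw [← hun, Finset.card_union_of_disjoint hdis]
      push_cast
      rfl
    have hpU : ∀ i ∈ SU, p i ∈ U := fun i hi => (Finset.mem_filter.1 hi).2
    have hpO : ∀ i ∈ SO, p i ∈ O := fun i hi =>
      (hp i (Finset.mem_filter.1 hi).1).resolve_left (Finset.mem_filter.1 hi).2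
    by_cases hyU : y ∈ U
    · rcases SO.eq_empty_or_nonempty with hO | hO
      · have hSS : SU = S := by rw [← hun, hO, Finset.union_empty]
        obtain ⟨t, h1, h2, h3⟩ := ih p S hS (fun i hi => hpU i (by rw [hSS]; exact hi)) y hyU
        exact ⟨t, h1, h2, by linarith⟩
      · obtain ⟨i1, hi1⟩ := id hO
        have hi1U : i1 ∉ SU := Finset.disjoint_right.1 hdis hi1
        obtain ⟨t', h1, h2, h3⟩ := ih (Function.update p i1 w) (insert i1 SU)
          (Finset.insert_nonempty _ _) (by
            intro i hi
            rcases Finset.mem_insert.1 hi with hi' | hi'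
            · rw [hi', Function.update_self]
              exact hwU
            · have hne : i ≠ i1 := fun hh => hi1U (hh ▸ hi')
              rw [Function.update_of_ne hne]
              exact hpU i hi') y hyU
        obtain ⟨g, g1, g2, g3⟩ := gchn_star p w SO hO
        have g4 := g3.trans (gchn_sum hc hη p hwO SO hO hpO)
        have herase : t'.lv.erase i1 = SU := by
          rw [h2, Finset.erase_insert hi1U]
        obtain ⟨k1, k2, k3⟩ := gchn_graft p w i1 g g1 t' h1
          (by rw [h2]; exact Finset.mem_insert_self _ _) (by rw [herase, g2]; exact hdis)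
        refine ⟨_, k1, by rw [k2, herase, g2, hun], ?_⟩
        have k4 := k3 y
        rw [Finset.card_insert_of_notMem hi1U] at h3
        push_cast at h3
        rw [hcard]
        linarith
    · have hyO : y ∈ O := hy.resolve_left hyU
      rcases SU.eq_empty_or_nonempty with hUe | hUn
      · have hSS : SO = S := by rw [← hun, hUe, Finset.empty_union]
        obtain ⟨t, h1, h2, h3⟩ := gchn_star p y S hS
        have h4 := h3.trans (gchn_sum hc hη p hyO S hS fun i hi => hpO i (by rw [hSS]; exact hi))
        exact ⟨t, h1, h2, by linarith⟩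
      · obtain ⟨t1, h1, h2, h3⟩ := ih p SU hUn hpU w hwU
        rcases SO.eq_empty_or_nonempty with hO | hO
        · have hSS : SU = S := by rw [← hun, hO, Finset.union_empty]
          rw [hSS] at h2 h3
          refine ⟨t1, h1, h2, ?_⟩
          linarith [hc y hyO w hwO, dist_triangle y w (t1.pos p)]
        · obtain ⟨g, g1, g2, g3⟩ := gchn_star p w SO hO
          have g4 := g3.trans (gchn_sum hc hη p hwO SO hO hpO)
          refine ⟨.node w t1 g, ⟨h1, g1, by rw [h2, g2]; exact hdis⟩, ?_, ?_⟩
          · simp only [BT.lv]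
            rw [h2, g2, hun]
          · rw [gchn_pos_node, gchn_esum_node, hcard]
            have h6 := hc y hyO w hwO
            linarith

end LG
end H11ST
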