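import Pool.Agent.Helper94.LG.Sheet3
import Pool.Agent.Helper50.LG.GCHN

/-!
Row EX_CHN of project LG (`MP_665203_co`).
-/

namespace H11ST
namespace LG

theorem ex_chn : EX_CHN := fun d n η s U h => gchn d n η s U h

end LG
end H11ST
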